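import Pool.Agent.H20.RT.Stmts

/-!
Row C1 of the board rt (MP_a315fd_nt).
-/

set_option autoImplicit false

namespace Pool.RT

/-- repunits -/
def C1_rr (k : ℕ) : ℕ := Nat.ofDigits 10 (List.replicate k 1)

theorem C1_rep (k d : ℕ) : Nat.ofDigits 10 (List.replicate k d) = d * C1_rr k := by
  unfold C1_rr
  induction k with
  | zero => simp
  | succ k ih =>
    rw [List.replicate_succ, List.replicate_succ, Nat.ofDigits_cons, Nat.ofDigits_cons, ih]
    ring

theorem C1_pow (k : ℕ) : 10 ^ k = 9 * C1_rr k + 1 := by
  unfold C1_rr
  induction k with
  | zero => simp
  | succ k ih =>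
    rw [List.replicate_succ, Nat.ofDigits_cons, pow_succ, ih]
    ring

theorem C1_add (a b : ℕ) : C1_rr (a + b) = 9 * C1_rr a * C1_rr b + C1_rr a + C1_rr b := by
  have h1 := C1_pow (a + b)
  rw [pow_add, C1_pow a, C1_pow b] at h1
  nlinarith

theorem C1_thm (hS : STPStmt) : C1Stmt := by
  intro a b
  have hu : wl a (a + b) 0 0 0 0 0 0 0 = List.replicate (a + b) 2 ++ List.replicate a 1 := by
    simp [wl]
  have h := hS (List.replicate (a + b) 2 ++ List.replicate a 1)
    (List.replicate a 3 ++ (List.replicate b 4 ++ List.replicate a 3)) 0 0 (2 * a) b 0 0 0 0 0
    (by
      intro x hx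
      rw [List.mem_append, List.mem_replicate, List.mem_replicate] at hx
      omega)
    (by
      intro x hx
      rw [List.mem_append, List.mem_append, List.mem_replicate, List.mem_replicate] at hx
      omega)
    (by
      rw [List.reverse_append, List.reverse_replicate, List.reverse_replicate]
      simp only [Nat.ofDigits_append, List.length_replicate, C1_rep]
      rw [C1_pow (a + b), C1_pow a, C1_pow b, C1_add]
      ring)
    (by simp [List.count_append, List.count_replicate])
    (by simp [List.count_append, List.count_replicate])
    (by
      simp [List.count_append, List.count_replicate]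
      omega)
    (by simp [List.count_append, List.count_replicate])
    (by simp [List.count_append, List.count_replicate])
    (by simp [List.count_append, List.count_replicate])
    (by simp [List.count_append, List.count_replicate])
    (by simp [List.count_append, List.count_replicate])
    (by simp [List.count_append, List.count_replicate])
  unfold Wd at h ⊢
  rw [hu]
  exact h

end Pool.RT
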